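import Pool.Agent.H41.StabF

/-!
# MP_b5bf4a_co: edges of geometric graphs forced to meet one line

`f n k` (defined in `Pool.Agent.H41.StabDefs`) is the least `e` such that for every geometric graph
on `n` points (no three collinear) with at least `e` edges some line meets the relative interiors
of at least `k` edges.

Write `k - 1 = s (s + 1) + 2 d + e` with `0 ≤ d ≤ s` and `e ∈ {0, 1}`. We show that
`f n k = s n + ⌊d n / (s + 1)⌋ + 1 + e + error` where `0 ≤ error ≤ 2 d` for `e = 0` and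
`0 ≤ error ≤ s (s + 1) / 2 + 2 d + 1` for `e = 1`, and we find several infinite families in which
the value is exact.

Upper bound: for two sets `A`, `B` of points separated by a line the map which sends
`(p, q) ∈ A × B` to the numbers of points of `A` and `B` above the line `p q` is injective, hence
bijective onto `[0, |A|) × [0, |B|)`. So cells of prescribed sizes can be peeled off `A` and `B` by
the same line. If `B` is dense then all cuts of `A` are cheap.
Lower bound: points on a parabola and a circulant-like graph with a Beatty set of longest edges.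
-/

set_option autoImplicit false

namespace Pool.Agent.Results.MP_b5bf4a_co.LineEdges

open Pool.Agent.H41.Stab Filter Topology

lemma two_half (s : ℕ) : 2 * (s * (s + 1) / 2) = s * (s + 1) := by
  have : 2 ∣ s * (s + 1) := (Nat.even_mul_succ_self s).two_dvd
  omega

lemma odd_bounds {n s d : ℕ} (hs : 1 ≤ s) (hd : d ≤ s) (h1 : s * (2 * s + 1) ≤ n)
    (h2 : 2 * s + 3 ≤ n) :
    n * s + n * d / (s + 1) + 1 ≤ f n (s * (s + 1) + 2 * d + 1) ∧
      f n (s * (s + 1) + 2 * d + 1) ≤ n * s + n * d / (s + 1) + 2 * d + 1 := by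
  constructor
  · exact f_lower_odd (by omega) (Or.inl (by omega))
  · obtain ⟨m, hm⟩ : ∃ m, m = (n + 2 * s + 1) / (2 * (s + 1)) := ⟨_, rfl⟩
    have a1 : 2 * (s + 1) * m ≤ n + 2 * s + 1 := by rw [hm]; exact Nat.mul_div_le _ _
    have a2 : n < 2 * (s + 1) * m + 1 := by
      have := Nat.lt_mul_div_succ (n + 2 * s + 1) (by omega : 0 < 2 * (s + 1))
      rw [← hm] at this
      nlinarith
    have hm1 : 1 ≤ m := by
      by_contra hcon
      have : m = 0 := by omega
      rw [this] at a2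
      omega
    have a3 : 2 * m * s ≤ n := by
      by_contra hcon
      push Not at hcon
      nlinarith
    have hU := f_upper_even (K := s * (s + 1) + 2 * d) hm1 hs a3 (by nlinarith)
    have a4 : 2 * m * d ≤ n * d / (s + 1) + 2 * d := by
      have : 2 * m * d - 2 * d ≤ n * d / (s + 1) := by
        rw [Nat.le_div_iff_mul_le (by omega)]
        have e : (2 * m * d - 2 * d) * (s + 1) = 2 * m * d * (s + 1) - 2 * d * (s + 1) :=
          Nat.sub_mul _ _ _
        rw [e]
        have : 2 * m * d * (s + 1) ≤ (n + 2 * s + 1) * d := by nlinarith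
        have e2 : (n + 2 * s + 1) * d = n * d + 2 * d * (s + 1) - d := by
          have : (n + 2 * s + 1) * d + d = n * d + 2 * d * (s + 1) := by ring
          omega
        omega
      omega
    have e1 : m * (s * (s + 1) + 2 * d) = m * (s * (s + 1)) + 2 * m * d := by ring
    omega

lemma odd_large {n N s d : ℕ} (hs : 1 ≤ s) (hN : s * (s + 1) / 2 + d + 3 ≤ N) (h1 : N * s ≤ n)
    (h2 : n ≤ N * (s + 1)) : f n (s * (s + 1) + 2 * d + 1) ≤ n * s + N * d + 1 := by
  have hg := two_half s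
  obtain ⟨g, hg'⟩ : ∃ g, g = s * (s + 1) / 2 := ⟨_, rfl⟩
  rw [← hg'] at hN hg
  rcases Nat.even_or_odd' N with ⟨m, rfl | rfl⟩
  · have hU := f_upper_even (K := s * (s + 1) + 2 * d) (m := m) (by omega) hs h1 h2
    have e1 : m * (s * (s + 1) + 2 * d) = m * (s * (s + 1)) + 2 * m * d := by ring
    omega
  · have hU := f_upper_odd (n := n) (m := m) (s := s) (c := g + d) (by omega) hs (by omega) h1 h2
    have e0 : 2 * (g + d) + 1 = s * (s + 1) + 2 * d + 1 := by omega
    rw [e0, ← hg] at hU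
    have e1 : 2 * ((2 * m + 1) * (g + d)) = (2 * m + 1) * (2 * g) + 2 * ((2 * m + 1) * d) := by
      ring
    rw [e1] at hU
    have e2 : s * (s + 1) + 2 * d + 1 = 2 * g + 2 * d + 1 := by omega
    rw [e2]
    omega

lemma even_bounds {n s d : ℕ} (hs : 1 ≤ s) (hd : d ≤ s) (h1 : s * s ≤ n) (h2 : 2 * s + 3 ≤ n) :
    n * s + n * d / (s + 1) + 2 ≤ f n (s * (s + 1) + 2 * d + 2) ∧
      f n (s * (s + 1) + 2 * d + 2)
        ≤ n * s + n * d / (s + 1) + s * (s + 1) / 2 + 2 * d + 3 := by
  constructor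
  · exact f_lower_even hd (by omega)
  · have hg := two_half s
    obtain ⟨g, hg'⟩ : ∃ g, g = s * (s + 1) / 2 := ⟨_, rfl⟩
    rw [← hg'] at hg ⊢
    obtain ⟨N, hN⟩ : ∃ N, N = (n + s) / (s + 1) := ⟨_, rfl⟩
    have a1 : (s + 1) * N ≤ n + s := by rw [hN]; exact Nat.mul_div_le _ _
    have a2 : n < (s + 1) * N + 1 := by
      have := Nat.lt_mul_div_succ (n + s) (by omega : 0 < s + 1)
      rw [← hN] at this
      nlinarith
    have hN1 : 1 ≤ N := by
      by_contra hcon
      have : N = 0 := by omega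
      rw [this] at a2
      omega
    have a3 : N * s ≤ n := by
      by_contra hcon
      push Not at hcon
      nlinarith
    have hU := f_upper_gen (n := n) (N := N) (s := s) (K := 2 * (g + d) + 1) (c := g + d)
      (by omega) (by omega) hN1 hs a3 (by nlinarith)
    have e0 : 2 * (g + d) + 1 + 1 = s * (s + 1) + 2 * d + 2 := by omega
    rw [e0, ← hg] at hU
    have a4 : N * d ≤ n * d / (s + 1) + d := by
      have : N * d - d ≤ n * d / (s + 1) := by
        rw [Nat.le_div_iff_mul_le (by omega)]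
        have e : (N * d - d) * (s + 1) = N * d * (s + 1) - d * (s + 1) := Nat.sub_mul _ _ _
        rw [e]
        have : N * d * (s + 1) ≤ (n + s) * d := by nlinarith
        have e2 : (n + s) * d + d = n * d + d * (s + 1) := by ring
        omega
      omega
    have e1 : 2 * (N * (g + d)) = N * (2 * g) + 2 * (N * d) := by ring
    rw [e1] at hU
    have e2 : s * (s + 1) + 2 * d + 2 = 2 * g + 2 * d + 2 := by omega
    rw [e2]
    omega

/-- adding several edges -/
lemma add_edges {n : ℕ} {p : Fin n → ℝ × ℝ} {K : ℕ} : ∀ (j : ℕ) (G : SimpleGraph (Fin n)),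
    G.edgeSet.ncard + j ≤ n.choose 2 →
    (∀ a b c : ℝ, (a ≠ 0 ∨ b ≠ 0) → (metEdges p G a b c).ncard ≤ K) →
    ∃ G' : SimpleGraph (Fin n), G'.edgeSet.ncard = G.edgeSet.ncard + j ∧
      ∀ a b c : ℝ, (a ≠ 0 ∨ b ≠ 0) → (metEdges p G' a b c).ncard ≤ K + j := by
  intro j
  induction j with
  | zero => intro G _ h; exact ⟨G, rfl, h⟩
  | succ j ih =>
    intro G hle h
    obtain ⟨G', hG', h'⟩ := ih G (by omega) h
    obtain ⟨G'', hG'', h''⟩ := add_edge (by omega) h'
    exact ⟨G'', by omega, fun a b c hab => by have := h'' a b c hab; omega⟩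

lemma one_line {t k : ℕ} (ht : 1 ≤ t) (h1 : t * (t - 1) + 1 ≤ k) (h2 : k ≤ t * t) :
    f (2 * t) k = k + t * (t - 1) := by
  obtain ⟨s, rfl⟩ : ∃ s, t = s + 1 := ⟨t - 1, by omega⟩
  rw [Nat.add_sub_cancel] at h1 ⊢
  apply le_antisymm
  · have hU := f_upper_even (n := 2 * (s + 1)) (m := 1) (s := s + 1) (K := k - 1) le_rfl (by omega)
      (by omega) (by omega)
    have e : k - 1 + 1 = k := by omega
    rw [e] at hU
    have e2 : 2 * (s + 1) * (s + 1) + 1 * (k - 1) + 1
        = 1 * ((s + 1) * (s + 1 + 1)) + (k + (s + 1) * s) := by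
      have : 2 * (s + 1) * (s + 1) = (s + 1) * (s + 1 + 1) + (s + 1) * s := by ring
      omega
    omega
  · obtain ⟨G, hG, hmet⟩ := low_even (n := 2 * (s + 1)) (s := s) (d := 0) (by omega) (by omega)
      (Or.inr ⟨by omega, rfl⟩)
    simp only [mul_zero, Nat.zero_div, add_zero] at hG hmet
    have hch : (2 * (s + 1)).choose 2 = (s + 1) * (2 * s + 1) := by
      rw [Nat.choose_two_right]
      have : 2 * (s + 1) * (2 * (s + 1) - 1) = 2 * ((s + 1) * (2 * s + 1)) := by
        have : 2 * (s + 1) - 1 = 2 * s + 1 := by omega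
        rw [this]; ring
      rw [this, Nat.mul_div_cancel_left _ (by norm_num)]
    obtain ⟨G', hG', hmet'⟩ := add_edges (K := s * (s + 1)) (k - 1 - (s + 1) * s) G (by
      rw [hG, hch]
      have q1 : (s + 1) * (s + 1) = (s + 1) * s + s + 1 := by ring
      have q2 : (s + 1) * (2 * s + 1) = 2 * (s + 1) * s + (s + 1) := by ring
      omega) hmet
    have := lt_f (par_genPos _) (G := G') (k := k) (fun a b c hab => by
      have := hmet' a b c hab
      have e : s * (s + 1) = (s + 1) * s := by ring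
      omega)
    rw [hG', hG] at this
    have e : 2 * (s + 1) * s = (s + 1) * s + (s + 1) * s := by ring
    omega

lemma uniform_lower {n k : ℕ} (hk : 4 ≤ k) (hn : 2 * Real.sqrt k + 3 ≤ n) :
    (n : ℝ) * (Real.sqrt k - 1 / 2) - 2 * n / Real.sqrt k < f n k := by
  have hk4 : (4 : ℝ) ≤ k := by exact_mod_cast hk
  have hsq : Real.sqrt k * Real.sqrt k = k := Real.mul_self_sqrt (by linarith)
  have hsqrt2 : 2 ≤ Real.sqrt k := by
    apply Real.le_sqrt_of_sq_le
    have : (2 : ℝ) ^ 2 = 4 := by norm_num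
    rw [this]
    exact hk4
  have hspos : 0 < Real.sqrt k := by linarith
  obtain ⟨s, hs1, hs2⟩ : ∃ s : ℕ, s * (s + 1) + 1 ≤ k ∧ k < (s + 1) * (s + 2) + 1 := by
    have hex : ∃ t : ℕ, k < (t + 1) * (t + 2) + 1 := ⟨k, by nlinarith⟩
    refine ⟨Nat.find hex, ?_, Nat.find_spec hex⟩
    rcases Nat.eq_zero_or_pos (Nat.find hex) with h0 | h0
    · rw [h0]; omega
    · have h1 := Nat.find_min hex (m := Nat.find hex - 1) (by omega)
      obtain ⟨w, hw⟩ : ∃ w, Nat.find hex = w + 1 := ⟨Nat.find hex - 1, by omega⟩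
      rw [hw] at h1 ⊢
      rw [Nat.add_sub_cancel] at h1
      have e : (w + 1) * (w + 1 + 1) = (w + 1) * (w + 2) := by ring
      omega
  obtain ⟨d, e, he, hde⟩ : ∃ d e : ℕ, e ≤ 1 ∧ k = s * (s + 1) + 2 * d + e + 1 := by
    refine ⟨(k - (s * (s + 1) + 1)) / 2, (k - (s * (s + 1) + 1)) % 2, ?_, ?_⟩
    · omega
    · omega
  have hd : d ≤ s := by
    have : (s + 1) * (s + 2) = s * (s + 1) + 2 * s + 2 := by ring
    omega
  have hssq : (s : ℝ) ≤ Real.sqrt k := by
    apply Real.le_sqrt_of_sq_le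
    have : s ^ 2 ≤ k := by nlinarith
    exact_mod_cast this
  have hn' : 2 * (s + 1) < n := by
    have : ((2 * (s + 1) : ℕ) : ℝ) < n := by push_cast; linarith
    exact_mod_cast this
  have hlow : (n * s + n * d / (s + 1) + 1 : ℕ) ≤ f n k := by
    have he' : e = 0 ∨ e = 1 := by omega
    rcases he' with rfl | rfl
    · rw [hde]
      exact f_lower_odd (by omega) (Or.inl hn')
    · rw [hde]
      have := f_lower_even (n := n) hd hn'
      have e2 : s * (s + 1) + 2 * d + 1 + 1 = s * (s + 1) + 2 * d + 2 := rfl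
      rw [e2]
      omega
  have hlow' : ((n * s + n * d / (s + 1) + 1 : ℕ) : ℝ) ≤ f n k := by exact_mod_cast hlow
  have hdiv2 : (n : ℝ) * d / (s + 1) < (n * d / (s + 1) : ℕ) + 1 := by
    rw [div_lt_iff₀ (by positivity)]
    have := Nat.lt_mul_div_succ (n * d) (by omega : 0 < s + 1)
    have h' : ((n * d : ℕ) : ℝ) < (((s + 1) * (n * d / (s + 1) + 1) : ℕ) : ℝ) := by
      exact_mod_cast this
    push_cast at h'
    linarith
  push_cast at hlow' hdiv2
  obtain ⟨x, hx⟩ : ∃ x : ℝ, x = s + d / (s + 1) := ⟨_, rfl⟩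
  have hfx : (n : ℝ) * x < f n k := by
    rw [hx]
    have : (n : ℝ) * (s + d / (s + 1)) = n * s + n * d / (s + 1) := by ring
    rw [this]
    linarith
  have hx0 : 0 ≤ x := by rw [hx]; positivity
  have hxk : (k : ℝ) - 2 ≤ (x + 1 / 2) ^ 2 := by
    have hkr : (k : ℝ) = s * (s + 1) + 2 * d + e + 1 := by rw [hde]; push_cast; ring
    have her : (e : ℝ) ≤ 1 := by exact_mod_cast he
    have hdr : (d : ℝ) ≤ s := by exact_mod_cast hd
    obtain ⟨u, hu⟩ : ∃ u : ℝ, u = (d : ℝ) / (s + 1) := ⟨_, rfl⟩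
    have hu0 : 0 ≤ u := by rw [hu]; positivity
    have hu1 : u ≤ 1 := by rw [hu, div_le_one (by positivity)]; linarith
    have hdu : (d : ℝ) = u * (s + 1) := by
      rw [hu, div_mul_cancel₀]
      positivity
    rw [hkr, hx, ← hu, hdu]
    nlinarith [sq_nonneg (u - 1 / 2)]
  have hx1 : Real.sqrt k - 2 / Real.sqrt k ≤ x + 1 / 2 := by
    by_contra hcon
    push Not at hcon
    have h1 : 0 ≤ x + 1 / 2 := by linarith
    have h2 : (x + 1 / 2) ^ 2 < (Real.sqrt k - 2 / Real.sqrt k) ^ 2 := by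
      apply pow_lt_pow_left₀ hcon h1 (by norm_num)
    have h3 : (Real.sqrt k - 2 / Real.sqrt k) ^ 2 = k - 4 + 4 / k := by
      have : (Real.sqrt k - 2 / Real.sqrt k) ^ 2
          = Real.sqrt k * Real.sqrt k - 4 * (Real.sqrt k / Real.sqrt k)
            + 4 / (Real.sqrt k * Real.sqrt k) := by
        field_simp
        ring
      rw [this, hsq, div_self hspos.ne']
      ring
    have h4 : (4 : ℝ) / k ≤ 1 := by
      rw [div_le_one (by linarith)]
      exact hk4
    rw [h3] at h2
    linarith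
  have hn0 : (0 : ℝ) < n := by linarith
  have h5 : (n : ℝ) * (Real.sqrt k - 1 / 2) - 2 * n / Real.sqrt k
      = n * ((Real.sqrt k - 2 / Real.sqrt k) - 1 / 2) := by
    field_simp
    ring
  rw [h5]
  have h6 : (n : ℝ) * ((Real.sqrt k - 2 / Real.sqrt k) - 1 / 2) ≤ n * x := by
    apply mul_le_mul_of_nonneg_left _ hn0.le
    linarith
  linarith

lemma uniform_upper {n k : ℕ} (hk : 4 ≤ k) (hn : 2 * Real.sqrt k + 3 ≤ n) :
    (f n k : ℝ) ≤ n * (Real.sqrt k - 1 / 2) + k + 1 := by
  have hk4 : (4 : ℝ) ≤ k := by exact_mod_cast hk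
  have hsq : Real.sqrt k * Real.sqrt k = k := Real.mul_self_sqrt (by linarith)
  have hsqrt2 : 2 ≤ Real.sqrt k := by
    apply Real.le_sqrt_of_sq_le
    have : (2 : ℝ) ^ 2 = 4 := by norm_num
    rw [this]
    exact hk4
  have hspos : 0 < Real.sqrt k := by linarith
  have hn7 : (7 : ℝ) ≤ n := by linarith
  obtain ⟨m, hm⟩ : ∃ m : ℕ, m = ⌈(n : ℝ) / (2 * Real.sqrt k)⌉₊ := ⟨_, rfl⟩
  have hm0 : (n : ℝ) / (2 * Real.sqrt k) ≤ m := by rw [hm]; exact Nat.le_ceil _
  have hm1 : (m : ℝ) < (n : ℝ) / (2 * Real.sqrt k) + 1 := by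
    rw [hm]
    exact Nat.ceil_lt_add_one (by positivity)
  have hmpos : (0 : ℝ) < m := lt_of_lt_of_le (by positivity) hm0
  have hm1' : 1 ≤ m := by exact_mod_cast hmpos
  have h2m : 2 * (m : ℝ) ≤ n := by
    have h3 : (n : ℝ) / (2 * Real.sqrt k) ≤ n / 4 := by
      apply div_le_div_of_nonneg_left (by linarith) (by norm_num)
      linarith
    linarith
  have h2m' : 2 * m ≤ n := by exact_mod_cast h2m
  obtain ⟨s, hs⟩ : ∃ s, s = n / (2 * m) := ⟨_, rfl⟩
  have hs1 : 1 ≤ s := by
    rw [hs]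
    exact (Nat.one_le_div_iff (by omega)).2 h2m'
  have hs2 : 2 * m * s ≤ n := by rw [hs]; exact Nat.mul_div_le _ _
  have hs3 : n ≤ 2 * m * (s + 1) := by
    have := Nat.lt_mul_div_succ n (by omega : 0 < 2 * m)
    rw [← hs] at this
    exact this.le
  have hU := f_upper_even (K := k - 1) hm1' hs1 hs2 hs3
  have e : k - 1 + 1 = k := by omega
  rw [e] at hU
  have hU' : (f n k : ℝ) + m * (s * (s + 1)) ≤ n * s + m * (k - 1) + 1 := by
    have h4 : ((f n k + m * (s * (s + 1)) : ℕ) : ℝ) ≤ ((n * s + m * (k - 1) + 1 : ℕ) : ℝ) := by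
      exact_mod_cast hU
    push_cast [Nat.cast_sub (by omega : 1 ≤ k)] at h4
    exact h4
  -- `n s - m s (s+1) ≤ (n-m)² / (4m)`
  have h5 : (n : ℝ) * s - m * (s * (s + 1)) ≤ (n - m) ^ 2 / (4 * m) := by
    rw [le_div_iff₀ (by positivity)]
    nlinarith [sq_nonneg ((n : ℝ) - m - 2 * m * s)]
  have h6 : ((n : ℝ) - m) ^ 2 / (4 * m) = n ^ 2 / (4 * m) - n / 2 + m / 4 := by
    field_simp
    ring
  have h7 : (n : ℝ) ^ 2 / (4 * m) ≤ n * Real.sqrt k / 2 := by
    rw [div_le_iff₀ (by positivity)]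
    have h8 : (n : ℝ) ≤ m * (2 * Real.sqrt k) := by
      rw [div_le_iff₀ (by positivity)] at hm0
      exact hm0
    nlinarith
  have h9 : (m : ℝ) * k ≤ n * Real.sqrt k / 2 + k := by
    have h10 : (m : ℝ) * k ≤ ((n : ℝ) / (2 * Real.sqrt k) + 1) * k :=
      mul_le_mul_of_nonneg_right hm1.le (by linarith)
    have h11 : (n : ℝ) / (2 * Real.sqrt k) * k = n * Real.sqrt k / 2 := by
      rw [div_mul_eq_mul_div, div_eq_div_iff (by positivity) (by norm_num)]
      nlinarith [hsq]
    linarith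
  nlinarith

theorem result :
    -- (1) upper bound from `m` lines
    (∀ n m s K : ℕ, 1 ≤ m → 1 ≤ s → 2 * m * s ≤ n → n ≤ 2 * m * (s + 1) →
      f n (K + 1) + m * (s * (s + 1)) ≤ n * s + m * K + 1) ∧
    -- (2) odd `k`
    (∀ n s d : ℕ, 1 ≤ s → d ≤ s → s * (2 * s + 1) ≤ n → 2 * s + 3 ≤ n →
      n * s + n * d / (s + 1) + 1 ≤ f n (s * (s + 1) + 2 * d + 1) ∧
      f n (s * (s + 1) + 2 * d + 1) ≤ n * s + n * d / (s + 1) + 2 * d + 1) ∧
    -- (3) even `k`
    (∀ n s d : ℕ, 1 ≤ s → d ≤ s → s * s ≤ n → 2 * s + 3 ≤ n →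
      n * s + n * d / (s + 1) + 2 ≤ f n (s * (s + 1) + 2 * d + 2) ∧
      f n (s * (s + 1) + 2 * d + 2)
        ≤ n * s + n * d / (s + 1) + s * (s + 1) / 2 + 2 * d + 3) ∧
    -- (4) exact values
    (∀ n m s : ℕ, 1 ≤ m → 1 ≤ s → 2 * s < n → 2 * m * s ≤ n → n ≤ 2 * m * (s + 1) →
      f n (s * (s + 1) + 1) = n * s + 1) ∧
    (∀ m s d : ℕ, 2 ≤ m → 1 ≤ s → d ≤ s →
      f (2 * (s + 1) * m) (s * (s + 1) + 2 * d + 1) = 2 * (s + 1) * m * s + 2 * m * d + 1) ∧
    (∀ N s d : ℕ, 1 ≤ s → d ≤ s → s * (s + 1) / 2 + d + 3 ≤ N →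
      f ((s + 1) * N) (s * (s + 1) + 2 * d + 1) = (s + 1) * N * s + N * d + 1) ∧
    (∀ t k : ℕ, 1 ≤ t → t * (t - 1) + 1 ≤ k → k ≤ t * t → f (2 * t) k = k + t * (t - 1)) ∧
    -- (5) the linear coefficient, for every fixed `k ≥ 3`
    (∀ s d e : ℕ, 1 ≤ s → d ≤ s → e ≤ 1 →
      Tendsto (fun n : ℕ => (f n (s * (s + 1) + 2 * d + e + 1) : ℝ) / n) atTop
        (𝓝 (s + d / (s + 1)))) ∧
    -- (6) uniform bounds
    (∀ n k : ℕ, 4 ≤ k → 2 * Real.sqrt k + 3 ≤ n →
      (n : ℝ) * (Real.sqrt k - 1 / 2) - 2 * n / Real.sqrt k < f n k ∧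
      (f n k : ℝ) ≤ n * (Real.sqrt k - 1 / 2) + k + 1) := by
  refine ⟨?_, ?_, ?_, ?_, ?_, ?_, ?_, ?_, ?_⟩
  · intro n m s K hm hs h1 h2
    exact f_upper_even hm hs h1 h2
  · intro n s d hs hd h1 h2
    exact odd_bounds hs hd h1 h2
  · intro n s d hs hd h1 h2
    exact even_bounds hs hd h1 h2
  · intro n m s hm hs hn h1 h2
    apply le_antisymm
    · have := f_upper_even (K := s * (s + 1)) hm hs h1 h2
      omega
    · have := f_lower_odd (n := n) (s := s) (d := 0) (by omega) (Or.inr ⟨hn, rfl⟩)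
      simpa using this
  · intro m s d hm hs hd
    apply le_antisymm
    · have := f_upper_even (n := 2 * (s + 1) * m) (K := s * (s + 1) + 2 * d) (by omega : 1 ≤ m) hs
        (by nlinarith) (by nlinarith)
      have e : m * (s * (s + 1) + 2 * d) = m * (s * (s + 1)) + 2 * m * d := by ring
      omega
    · have := f_lower_odd (n := 2 * (s + 1) * m) (s := s) (d := d) (by omega)
        (Or.inl (by nlinarith))
      have e : 2 * (s + 1) * m * d / (s + 1) = 2 * m * d := by
        have : 2 * (s + 1) * m * d = (s + 1) * (2 * m * d) := by ring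
        rw [this, Nat.mul_div_cancel_left _ (by omega)]
      rw [e] at this
      exact this
  · intro N s d hs hd hN
    apply le_antisymm
    · exact odd_large hs hN (by nlinarith) (by nlinarith)
    · have hN3 : 3 ≤ N := by omega
      have := f_lower_odd (n := (s + 1) * N) (s := s) (d := d) (by omega)
        (Or.inl (by nlinarith))
      have e : (s + 1) * N * d / (s + 1) = N * d := by
        rw [mul_assoc, Nat.mul_div_cancel_left _ (by omega)]
      rw [e] at this
      exact this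
  · intro t k ht h1 h2
    exact one_line ht h1 h2
  · intro s d e hs hd he
    -- `|f n k - n (s + d / (s+1))| ≤ C`
    have hbound : ∀ n : ℕ, s * (2 * s + 1) + 2 * s + 3 ≤ n →
        (n : ℝ) * (s + d / (s + 1)) ≤ f n (s * (s + 1) + 2 * d + e + 1) ∧
        (f n (s * (s + 1) + 2 * d + e + 1) : ℝ)
          ≤ n * (s + d / (s + 1)) + (s * (s + 1) + 2 * d + 3) := by
      intro n hn
      have hss : s * s ≤ s * (2 * s + 1) := by nlinarith
      have hdiv1 : (n * d / (s + 1) : ℕ) ≤ (n : ℝ) * d / (s + 1) := by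
        have := @Nat.cast_div_le ℝ _ _ _ (n * d) (s + 1)
        push_cast at this ⊢
        exact this
      have hdiv2 : (n : ℝ) * d / (s + 1) < (n * d / (s + 1) : ℕ) + 1 := by
        rw [div_lt_iff₀ (by positivity)]
        have := Nat.lt_mul_div_succ (n * d) (by omega : 0 < s + 1)
        have h' : ((n * d : ℕ) : ℝ) < (((s + 1) * (n * d / (s + 1) + 1) : ℕ) : ℝ) := by
          exact_mod_cast this
        push_cast at h'
        linarith
      have hg := two_half s
      have hexp : (n : ℝ) * (s + d / (s + 1)) = n * s + n * d / (s + 1) := by ring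
      rw [hexp]
      have he' : e = 0 ∨ e = 1 := by omega
      rcases he' with rfl | rfl
      · obtain ⟨h1, h2⟩ := odd_bounds (n := n) hs hd (by omega) (by omega)
        rw [add_zero]
        have h1' : ((n * s + n * d / (s + 1) + 1 : ℕ) : ℝ) ≤ f n (s * (s + 1) + 2 * d + 1) := by
          exact_mod_cast h1
        have h2' : (f n (s * (s + 1) + 2 * d + 1) : ℝ)
            ≤ ((n * s + n * d / (s + 1) + 2 * d + 1 : ℕ) : ℝ) := by
          exact_mod_cast h2
        push_cast at h1' h2' hdiv1 hdiv2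
        have hpos : (0 : ℝ) ≤ (s : ℝ) * (s + 1) := by positivity
        constructor
        · linarith
        · linarith
      · obtain ⟨h1, h2⟩ := even_bounds (n := n) hs hd (by omega) (by omega)
        have h1' : ((n * s + n * d / (s + 1) + 2 : ℕ) : ℝ) ≤ f n (s * (s + 1) + 2 * d + 1 + 1) := by
          exact_mod_cast h1
        have h3 : n * s + n * d / (s + 1) + s * (s + 1) / 2 + 2 * d + 3
            ≤ n * s + n * d / (s + 1) + s * (s + 1) + 2 * d + 3 := by omega
        have h2' : (f n (s * (s + 1) + 2 * d + 1 + 1) : ℝ)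
            ≤ ((n * s + n * d / (s + 1) + s * (s + 1) + 2 * d + 3 : ℕ) : ℝ) := by
          exact_mod_cast h2.trans h3
        push_cast at h1' h2' hdiv1 hdiv2
        constructor
        · linarith
        · linarith
    have hlim1 : Tendsto (fun n : ℕ => ((s : ℝ) + d / (s + 1))) atTop (𝓝 (s + d / (s + 1))) :=
      tendsto_const_nhds
    have hlim2 : Tendsto (fun n : ℕ => ((s : ℝ) + d / (s + 1))
        + ((s * (s + 1) + 2 * d + 3 : ℝ)) / n) atTop (𝓝 (s + d / (s + 1))) := by
      have : Tendsto (fun n : ℕ => ((s * (s + 1) + 2 * d + 3 : ℝ)) / n) atTop (𝓝 0) :=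
        tendsto_const_div_atTop_nhds_zero_nat _
      simpa using hlim1.add this
    refine tendsto_of_tendsto_of_tendsto_of_le_of_le' hlim1 hlim2 ?_ ?_
    · filter_upwards [eventually_ge_atTop (s * (2 * s + 1) + 2 * s + 3)] with n hn
      have hn0 : (0 : ℝ) < n := by
        have : 0 < n := by omega
        exact_mod_cast this
      rw [le_div_iff₀ hn0]
      have := (hbound n hn).1
      linarith
    · filter_upwards [eventually_ge_atTop (s * (2 * s + 1) + 2 * s + 3)] with n hn
      have hn0 : (0 : ℝ) < n := by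
        have : 0 < n := by omega
        exact_mod_cast this
      rw [div_le_iff₀ hn0, add_mul, div_mul_cancel₀ _ hn0.ne']
      have := (hbound n hn).2
      linarith
  · intro n k hk hn
    exact ⟨uniform_lower hk hn, uniform_upper hk hn⟩

end Pool.Agent.Results.MP_b5bf4a_co.LineEdges
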